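import Pool.Agent.Q33.Fam.Final
import Pool.Agent.Q33.Fam.X6A
import Pool.Agent.Q33.Fam.X6B
import Pool.Agent.Q33.Fam.W6
import Pool.Agent.Q33.Fam.X8
import Pool.Agent.Q33.Fam.W8

set_option autoImplicit false

namespace Pool.Agent.Results.MP_e1e815_nt.SixEight

open Finset Pool.Agent.Q33.Fam

/-! ### `6k+1` -/

lemma ft0 (N : ℕ) : W6.ft 0 N = (((6 : ℤ) * N + 1) * w2 N : ℤ) := by
  unfold W6.ft
  push_cast
  rw [w2_fact]
  simp only [mul_zero, zero_add, pow_zero, Nat.factorial_zero, Nat.cast_one]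
  have h1 : (N.factorial : ℚ) ≠ 0 := by exact_mod_cast N.factorial_ne_zero
  field_simp
  ring

lemma gt_zero (k : ℕ) : W6.gt k 0 =
    ((27 ^ k * 36 : ℤ) : ℚ) * ((((2 * k + 0 + 1 : ℕ) : ℤ) * cb (2 * k + 0 + 1) : ℤ) : ℚ) *
      (((fp [k, 6 * k + 3 * 0 + 3, 2 * k + 2 * 0] : ℕ) : ℚ) /
        ((fp [3 * k + 1, 4 * k + 2 * 0 + 2, k + 0, k + 0, 0] : ℕ) : ℚ)) := by
  unfold W6.gt
  push_cast
  rw [cb_fact]
  simp only [fp_cons, fp_nil, mul_zero, add_zero]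
  have e1 : 4 * k + 2 = 2 * (2 * k + 1) := by ring
  rw [e1, Nat.factorial_succ k, Nat.factorial_succ (3 * k + 2), Nat.factorial_succ (3 * k + 1)]
  push_cast
  have h1 : ((2 * k + 1).factorial : ℚ) ≠ 0 := by exact_mod_cast Nat.factorial_ne_zero _
  have h2 : ((2 * (2 * k + 1)).factorial : ℚ) ≠ 0 := by exact_mod_cast Nat.factorial_ne_zero _
  have h3 : (k.factorial : ℚ) ≠ 0 := by exact_mod_cast Nat.factorial_ne_zero _
  have h4 : ((3 * k + 1).factorial : ℚ) ≠ 0 := by exact_mod_cast Nat.factorial_ne_zero _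
  have h7 : ((k : ℚ) + 1) ≠ 0 := by positivity
  have h8 : (3 * (k : ℚ) + 1 + 1) ≠ 0 := by positivity
  have h9 : (3 * (k : ℚ) + 2 + 1) ≠ 0 := by positivity
  rw [pow_succ]
  field_simp
  ring

lemma gt_succ (k M : ℕ) : W6.gt k (M + 1) =
    ((27 ^ (k + 1) * 12 : ℤ) : ℚ) * ((((2 * k + (M + 1) + 1 : ℕ) : ℤ) * cb (2 * k + (M + 1) + 1) : ℤ) : ℚ) *
      (((fp [k + 1, 6 * (k + 1) + 3 * M, 2 * (k + 1) + 2 * M] : ℕ) : ℚ) /
        ((fp [3 * (k + 1), 4 * (k + 1) + 2 * M, k + 1 + M, k + 1 + M, M] : ℕ) : ℚ)) +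
    ((27 ^ k * 36 : ℤ) : ℚ) * ((((2 * k + (M + 1) + 1 : ℕ) : ℤ) * cb (2 * k + (M + 1) + 1) : ℤ) : ℚ) *
      (((fp [k, 6 * k + 3 * (M + 1) + 3, 2 * k + 2 * (M + 1)] : ℕ) : ℚ) /
        ((fp [3 * k + 1, 4 * k + 2 * (M + 1) + 2, k + (M + 1), k + (M + 1), M + 1] : ℕ) : ℚ)) := by
  unfold W6.gt
  push_cast
  rw [cb_fact]
  simp only [fp_cons, fp_nil]
  have e1 : 4 * k + 2 * (M + 1) + 2 = 2 * (2 * k + (M + 1) + 1) := by ring
  have e2 : 4 * (k + 1) + 2 * M = 2 * (2 * k + (M + 1) + 1) := by ring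
  have e3 : 6 * (k + 1) + 3 * M = 6 * k + 3 * (M + 1) + 3 := by ring
  have e4 : 2 * (k + 1) + 2 * M = 2 * k + 2 * (M + 1) := by ring
  have e5 : k + 1 + M = k + (M + 1) := by ring
  have e6 : 3 * (k + 1) = 3 * k + 3 := by ring
  rw [e1, e2, e3, e4, e5, e6, Nat.factorial_succ k, Nat.factorial_succ (3 * k + 2), Nat.factorial_succ (3 * k + 1),
    Nat.factorial_succ M]
  push_cast
  have h1 : ((2 * k + (M + 1) + 1).factorial : ℚ) ≠ 0 := by exact_mod_cast Nat.factorial_ne_zero _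
  have h2 : ((2 * (2 * k + (M + 1) + 1)).factorial : ℚ) ≠ 0 := by exact_mod_cast Nat.factorial_ne_zero _
  have h3 : (M.factorial : ℚ) ≠ 0 := by exact_mod_cast Nat.factorial_ne_zero _
  have h4 : ((3 * k + 1).factorial : ℚ) ≠ 0 := by exact_mod_cast Nat.factorial_ne_zero _
  have h5 : ((k + (M + 1)).factorial : ℚ) ≠ 0 := by exact_mod_cast Nat.factorial_ne_zero _
  have h7 : ((k : ℚ) + 1) ≠ 0 := by positivity
  have h8 : (3 * (k : ℚ) + 1 + 1) ≠ 0 := by positivity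
  have h9 : (3 * (k : ℚ) + 2 + 1) ≠ 0 := by positivity
  have h10 : ((M : ℚ) + 1) ≠ 0 := by positivity
  rw [pow_succ]
  field_simp
  ring

lemma gtQ (k M : ℕ) : Q 6 (((2 * k + M + 1 : ℕ) : ℤ) * cb (2 * k + M + 1)) (W6.gt k M) := by
  rcases Nat.eq_zero_or_pos M with h | h
  · subst h
    rw [gt_zero]
    exact Q_ratio0 (27 ^ k * 36) _ _ (X6B k 0) _ rfl
  · obtain ⟨L, rfl⟩ : ∃ L, M = L + 1 := ⟨M - 1, by omega⟩
    rw [gt_succ]
    apply Q_add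
    · exact Q_ratio0 (27 ^ (k + 1) * 12) _ _ (X6A (k + 1) L) _ rfl
    · exact Q_ratio0 (27 ^ k * 36) _ _ (X6B k (L + 1)) _ rfl

lemma hQ (n : ℕ) (hn : 1 ≤ n) : Q 6 ((n : ℤ) * cb n) (((216 : ℤ) : ℚ) * (S 6 1 216 w2 n : ℤ)) := by
  rw [← tele2 216 6 1 w2 W6.ft W6.gt ?_ ?_ ?_ ft0 n]
  · apply Q_sum
    intro k hk
    split_ifs with h
    · have e : 2 * k + (n - 2 * k - 1) + 1 = n := by omega
      have := gtQ k (n - 2 * k - 1)
      rw [e] at this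
      exact this
    · exact Q_zero _ _
  · intro k M
    have := W6.Wgen k M
    push_cast
    exact this
  · intro k
    have := W6.Wb1 k
    push_cast
    exact this
  · intro k
    have := W6.Wb0 k
    push_cast
    exact this

/-! ### `8k+1` -/

lemma ft0' (N : ℕ) : W8.ft 0 N = (((8 : ℤ) * N + 1) * w4 N : ℤ) := by
  unfold W8.ft
  push_cast
  rw [w4_fact]
  simp only [mul_zero, zero_add, pow_zero, Nat.factorial_zero, Nat.cast_one]
  have h1 : (N.factorial : ℚ) ≠ 0 := by exact_mod_cast N.factorial_ne_zero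
  have h2 : ((2 * N).factorial : ℚ) ≠ 0 := by exact_mod_cast Nat.factorial_ne_zero _
  field_simp
  ring

lemma gtQ' (k M : ℕ) : Q 6 (((k + M + 1 : ℕ) : ℤ) * cb (k + M + 1)) (W8.gt k M) := by
  apply Q_of_pow_mul (k + 1)
  apply Q_ratio0 (32 ^ (k + 1) * 36 * cb M) _ _ (X8 k M)
  unfold W8.gt
  push_cast
  rw [cb_fact, cb_fact]
  simp only [fp_cons, fp_nil]
  have e0 : 2 * (k + M + 1) = (2 * k + 2 * M + 1) + 1 := by ring
  rw [e0, Nat.factorial_succ (2 * k + 2 * M + 1)]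
  push_cast
  have h1 : ((k + M + 1).factorial : ℚ) ≠ 0 := by exact_mod_cast Nat.factorial_ne_zero _
  have h2 : ((2 * k + 2 * M + 1).factorial : ℚ) ≠ 0 := by exact_mod_cast Nat.factorial_ne_zero _
  have h3 : (M.factorial : ℚ) ≠ 0 := by exact_mod_cast Nat.factorial_ne_zero _
  have h4 : ((2 * k + 2).factorial : ℚ) ≠ 0 := by exact_mod_cast Nat.factorial_ne_zero _
  have h5 : ((3 * k + 2 * M + 2).factorial : ℚ) ≠ 0 := by exact_mod_cast Nat.factorial_ne_zero _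
  have e32 : (32 : ℚ) ^ (k + 1) = 6 ^ (k + 1) * (16 / 3) ^ (k + 1) := by rw [← mul_pow]; norm_num
  rw [e32]
  generalize (16 / 3 : ℚ) ^ (k + 1) = z
  generalize (6 : ℚ) ^ (k + 1) = z2
  have h8 : (2 * (k : ℚ) + 2 * M + 1 + 1) ≠ 0 := by positivity
  field_simp
  ring

lemma hQ' (n : ℕ) : Q 6 ((n : ℤ) * cb n) (((2304 : ℤ) : ℚ) * (S 8 1 2304 w4 n : ℤ)) := by
  rw [← tele1 2304 8 1 w4 W8.ft W8.gt ?_ ?_ ft0' n]
  · apply Q_sum
    intro k hk
    have e : k + (n - 1 - k) + 1 = n := by omega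
    have := gtQ' k (n - 1 - k)
    rw [e] at this
    exact this
  · intro k M
    have := W8.Wgen k M
    push_cast
    exact this
  · intro k
    have := W8.Wb0 k
    push_cast
    exact this

/-- the numbers `a_n` of the problem -/
noncomputable def a (n : ℕ) : ℚ :=
  (∑ j ∈ range n, 216 ^ (n - 1 - j) * (6 * (j : ℚ) + 1) * ((2 * j).choose j : ℚ) ^ 2 * ((3 * j).choose j : ℚ)) /
    (n * (2 * n + 1) * ((2 * n).choose n : ℚ))

/-- the numbers `b_n` of the problem -/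
noncomputable def b (n : ℕ) : ℚ :=
  (∑ j ∈ range n, 2304 ^ (n - 1 - j) * (8 * (j : ℚ) + 1) * (((4 * j).factorial : ℚ) / (j.factorial : ℚ) ^ 4)) /
    (2 * n * (2 * n + 1) * ((2 * n).choose n : ℚ))

lemma a_eq (n : ℕ) : a n = ((S 6 1 216 w2 n : ℤ) : ℚ) / ((1 * D n : ℤ) : ℚ) := by
  unfold a S D w2 cb
  push_cast
  rw [one_mul]
  congr 1
  apply sum_congr rfl
  intro k _
  ring

lemma b_eq (n : ℕ) : b n = ((S 8 1 2304 w4 n : ℤ) : ℚ) / ((2 * D n : ℤ) : ℚ) := by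
  unfold b S D
  push_cast
  congr 1
  · apply sum_congr rfl
    intro k _
    rw [w4_fact]
    ring
  · unfold cb
    push_cast
    ring

/-- For every `n > 1`: if `2n+1` is not a power of 3 then `a n` and `b n` are integers; if `2n+1` is a power of 3 then
`3 a n` and `3 b n` are integers and neither is divisible by 3. -/
theorem result : ∀ n : ℕ, 1 < n →
    ((¬ ∃ m : ℕ, 2 * n + 1 = 3 ^ m) → (∃ z : ℤ, a n = z) ∧ (∃ z : ℤ, b n = z)) ∧
    ((∃ m : ℕ, 2 * n + 1 = 3 ^ m) →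
      (∃ z : ℤ, 3 * a n = z ∧ ¬ (3 : ℤ) ∣ z) ∧ (∃ z : ℤ, 3 * b n = z ∧ ¬ (3 : ℤ) ∣ z)) := by
  intro n hn
  obtain ⟨V, hV⟩ := V2
  obtain ⟨V', hV'⟩ := V4
  obtain ⟨h1, h2⟩ := final6 6 1 216 108 72 w2 Y2 V 1 (by norm_num) (by norm_num) (by norm_num) (by norm_num)
    ⟨3, by norm_num⟩ hQ w2_dvd (fun n h => hV n (by omega))
    ⟨1, by norm_num, by
      unfold D S w2 cb
      norm_num [sum_range_succ, Nat.choose]⟩ Y2_ne w2_Y Y2_h1 Y2_h2 n hn
  obtain ⟨h1', h2'⟩ := final6 8 1 2304 1152 768 w4 Y4 V' 2 (by norm_num) (by norm_num) (by norm_num) (by norm_num)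
    ⟨8, by norm_num⟩ (fun n _ => hQ' n) w4_dvd (fun n h => hV' n (by omega))
    ⟨1, by norm_num, by
      unfold D S cb
      norm_num [sum_range_succ, Nat.choose, w4_zero, w4_one]⟩ Y4_ne w4_Y Y4_h1 Y4_h2 n hn
  have hD := D_pos n (by omega)
  rw [a_eq, b_eq]
  constructor
  · intro h
    push Not at h
    obtain ⟨z, hz, _⟩ := rat_int _ _ (by omega) (h1 (Or.inl h))
    obtain ⟨z', hz', _⟩ := rat_int _ _ (by omega) (h1' (Or.inl h))
    exact ⟨⟨z, hz⟩, ⟨z', hz'⟩⟩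
  · intro h
    obtain ⟨h3, h4⟩ := h2 h (by norm_num)
    obtain ⟨h3', h4'⟩ := h2' h (by norm_num)
    exact ⟨rat_three _ _ 1 (by omega) h3 h4, rat_three _ _ 2 (by omega) h3' h4'⟩

end Pool.Agent.Results.MP_e1e815_nt.SixEight
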